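import Mathlib
import Pool.Agent.H9.LcmDefs
import Pool.Agent.H9.LcmOdd

set_option autoImplicit false

namespace Pool.Agent.Results.MP_ff0ae1_nt.LargeReversals

open Pool.Agent.H9.LcmBlocks

/-- With `Lc n k = lcm(n+1,…,n+k)`: the inequality of Q1 fails for infinitely many `n` at some `k`
with `n^{51/100} ≤ k < n`, and it fails at `k = 3` for every odd `n ≥ 13`. -/
theorem result :
    (∀ n₀ : ℕ, ∃ n k : ℕ, n₀ < n ∧ 1 ≤ k ∧ k < n ∧ (n:ℝ)^((51:ℝ)/100) ≤ k ∧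
      Lc n k < Lc (n - k) k) ∧
    (∀ n : ℕ, 13 ≤ n → Odd n → Lc n 3 < Lc (n - 3) 3) :=
  ⟨large_reversed, odd_reversed⟩

end Pool.Agent.Results.MP_ff0ae1_nt.LargeReversals
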